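import Pool.Agent.W297.LP.Stm

/-!
Project LP (helper297), part QK: facts on the reduced red kernel.
-/

set_option autoImplicit false

open Finset

namespace Pool.Agent.W405.LP.QK

open Pool.Agent.W297.LP

section

variable {k : ℕ} {V : Type} [DecidableEq V] {W : V → V → ℝ}
  {Vi : Fin (k - 1) → Finset V} {A1 : Finset V}

theorem qk_VV {i : Fin (k - 1)} {x y : V} (hx : x ∈ Vi i) (hy : y ∈ Vi i) :
    qk W Vi A1 x y = W x y := by
  unfold qk; rw [if_pos (Or.inl ⟨i, hx, hy⟩)]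

theorem qk_VA {i : Fin (k - 1)} {x y : V} (hx : x ∈ Vi i) (hy : y ∈ A1) :
    qk W Vi A1 x y = W x y := by
  unfold qk; rw [if_pos (Or.inr (Or.inr ⟨hy, i, hx⟩))]

theorem qk_AV {i : Fin (k - 1)} {x y : V} (hx : x ∈ A1) (hy : y ∈ Vi i) :
    qk W Vi A1 x y = W x y := by
  unfold qk; rw [if_pos (Or.inr (Or.inl ⟨hx, i, hy⟩))]

theorem qk_zo (hW : Ker W) (x y : V) : qk W Vi A1 x y = 0 ∨ qk W Vi A1 x y = 1 := by
  unfold qk; split_ifs
  · exact hW.zo x y
  · exact Or.inl rfl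

theorem qk_le (hW : Ker W) (x y : V) : qk W Vi A1 x y ≤ W x y := by
  unfold qk; split_ifs
  · exact le_rfl
  · rcases hW.zo x y with h | h <;> rw [h] <;> norm_num

theorem qk_symm (hW : Ker W) (x y : V) : qk W Vi A1 x y = qk W Vi A1 y x := by
  unfold qk
  rw [hW.symm x y]
  congr 1
  apply propext
  constructor
  · rintro (⟨i, h1, h2⟩ | ⟨h1, i, h2⟩ | ⟨h1, i, h2⟩)
    · exact Or.inl ⟨i, h2, h1⟩
    · exact Or.inr (Or.inr ⟨h1, i, h2⟩)
    · exact Or.inr (Or.inl ⟨h1, i, h2⟩)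
  · rintro (⟨i, h1, h2⟩ | ⟨h1, i, h2⟩ | ⟨h1, i, h2⟩)
    · exact Or.inl ⟨i, h2, h1⟩
    · exact Or.inr (Or.inr ⟨h1, i, h2⟩)
    · exact Or.inr (Or.inl ⟨h1, i, h2⟩)

end

section

variable {k : ℕ} {V : Type} [Fintype V] [DecidableEq V] {W : V → V → ℝ}
  {Vi : Fin (k - 1) → Finset V} {A1 A2 : Finset V} {e d : ℝ}

theorem tot_sum (hT : Typ k e d W Vi A1 A2) (f : V → ℝ) :
    ∑ x, f x = ∑ i, ∑ x ∈ Vi i, f x + ∑ x ∈ A1, f x + ∑ x ∈ A2, f x := by
  classical
  have h1 : ∑ i, ∑ x ∈ Vi i, f x = ∑ x ∈ univ.biUnion Vi, f x := by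
    rw [sum_biUnion]
    intro i _ j _ hij
    exact hT.disj i j hij
  have d1 : Disjoint (univ.biUnion Vi) A1 := by
    rw [disjoint_biUnion_left]
    intro i _; exact hT.d1 i
  have d2 : Disjoint (univ.biUnion Vi ∪ A1) A2 := by
    rw [disjoint_union_left, disjoint_biUnion_left]
    exact ⟨fun i _ => hT.d2 i, hT.d12⟩
  rw [h1, ← sum_union d1, ← sum_union d2]
  congr 1
  symm
  rw [eq_univ_iff_forall]
  intro x
  rcases hT.cov x with h | h | ⟨i, h⟩
  · simp [h]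
  · simp [h]
  · simp only [mem_union, mem_biUnion, mem_univ, true_and]
    exact Or.inl (Or.inl ⟨i, h⟩)

theorem qk_A2 (hT : Typ k e d W Vi A1 A2) {x : V} (hx : x ∈ A2) (y : V) :
    qk W Vi A1 x y = 0 := by
  unfold qk; rw [if_neg]
  rintro (⟨i, h1, h2⟩ | ⟨h1, i, h2⟩ | ⟨h1, i, h2⟩)
  · exact (disjoint_left.1 (hT.d2 i)) h1 hx
  · exact (disjoint_left.1 hT.d12) h1 hx
  · exact (disjoint_left.1 (hT.d2 i)) h2 hx

theorem qk_A1A1 (hT : Typ k e d W Vi A1 A2) {x y : V} (hx : x ∈ A1) (hy : y ∈ A1) :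
    qk W Vi A1 x y = 0 := by
  unfold qk; rw [if_neg]
  rintro (⟨i, h1, h2⟩ | ⟨h1, i, h2⟩ | ⟨h1, i, h2⟩)
  · exact (disjoint_left.1 (hT.d1 i)) h1 hx
  · exact (disjoint_left.1 (hT.d1 i)) h2 hy
  · exact (disjoint_left.1 (hT.d1 i)) h2 hx

theorem qk_VjV (hT : Typ k e d W Vi A1 A2) {i j : Fin (k - 1)} (hij : j ≠ i) {x y : V}
    (hx : x ∈ Vi i) (hy : y ∈ Vi j) : qk W Vi A1 x y = 0 := by
  unfold qk; rw [if_neg]
  rintro (⟨l, h1, h2⟩ | ⟨h1, l, h2⟩ | ⟨h1, l, h2⟩)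
  · have e1 : l = i := by
      by_contra h
      exact (disjoint_left.1 (hT.disj l i h)) h1 hx
    have e2 : l = j := by
      by_contra h
      exact (disjoint_left.1 (hT.disj l j h)) h2 hy
    exact hij (e2.symm.trans e1)
  · exact (disjoint_left.1 (hT.d1 i)) hx h1
  · exact (disjoint_left.1 (hT.d1 j)) hy h1

theorem sum_V (hW : Ker W) (hT : Typ k e d W Vi A1 A2) {i : Fin (k - 1)} {x : V}
    (hx : x ∈ Vi i) :
    ∑ y, qk W Vi A1 x y = ((Vi i).card : ℝ) - ∑ y ∈ Vi i, co W x y + ∑ y ∈ A1, W x y := by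
  rw [tot_sum hT]
  have h2 : ∑ y ∈ A2, qk W Vi A1 x y = 0 := by
    apply sum_eq_zero
    intro y hy
    rw [qk_symm hW]; exact qk_A2 hT hy x
  have h1 : ∑ y ∈ A1, qk W Vi A1 x y = ∑ y ∈ A1, W x y :=
    sum_congr rfl fun y hy => qk_VA hx hy
  have h0 : ∑ j, ∑ y ∈ Vi j, qk W Vi A1 x y = ∑ y ∈ Vi i, W x y := by
    rw [sum_eq_single i]
    · exact sum_congr rfl fun y hy => qk_VV hx hy
    · intro j _ hj
      exact sum_eq_zero fun y hy => qk_VjV hT hj hx hy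
    · intro h; exact absurd (mem_univ i) h
  rw [h0, h1, h2]
  unfold co
  rw [sum_sub_distrib, sum_const, nsmul_eq_mul, mul_one]
  ring

theorem sum_A (hT : Typ k e d W Vi A1 A2) (hW : Ker W) {x : V} (hx : x ∈ A1) :
    ∑ y, qk W Vi A1 x y = ∑ i, ∑ y ∈ Vi i, W x y := by
  rw [tot_sum hT]
  have h2 : ∑ y ∈ A2, qk W Vi A1 x y = 0 := by
    apply sum_eq_zero
    intro y hy
    rw [qk_symm hW]; exact qk_A2 hT hy x
  have h1 : ∑ y ∈ A1, qk W Vi A1 x y = 0 :=
    sum_eq_zero fun y hy => qk_A1A1 hT hx hy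
  rw [h1, h2, add_zero, add_zero]
  exact sum_congr rfl fun i _ => sum_congr rfl fun y hy => qk_AV hx hy

end

theorem Wnn {V : Type} {W : V → V → ℝ} (hW : Ker W) (x y : V) : 0 ≤ W x y := by
  rcases hW.zo x y with h | h <;> rw [h] <;> norm_num

theorem Wle {V : Type} {W : V → V → ℝ} (hW : Ker W) (x y : V) : W x y ≤ 1 := by
  rcases hW.zo x y with h | h <;> rw [h] <;> norm_num

theorem sum_le_card {V : Type} {W : V → V → ℝ} (hW : Ker W) (x : V) (A : Finset V) :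
    ∑ y ∈ A, W x y ≤ (A.card : ℝ) := by
  calc ∑ y ∈ A, W x y ≤ ∑ _y ∈ A, (1 : ℝ) := sum_le_sum fun y _ => Wle hW x y
    _ = A.card := by simp

theorem qkf : SQk := by
  intro k hk e d he he2 hd hd2 V _ _ W Vi A1 A2 hW hn hT hba
  set n : ℝ := (Fintype.card V : ℝ) with hndef
  have hn0 : 0 < n := by rw [hndef]; exact_mod_cast hn
  set m : ℝ := mu k with hm
  set a : ℝ := ms A1 with ha
  set a2 : ℝ := ms A2 with ha2
  have hkR : (4 : ℝ) ≤ k := by exact_mod_cast hk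
  have hk1 : (3 : ℝ) ≤ (k : ℝ) - 1 := by linarith
  have hm0 : 0 < m := by rw [hm]; unfold mu; positivity
  have hmk : m * ((k : ℝ) - 1) = 1 := by
    rw [hm]; unfold mu; field_simp
  have hm3 : m ≤ 1 / 3 := by
    rw [hm]; unfold mu
    exact one_div_le_one_div_of_le (by norm_num) hk1
  have ha0 : 0 ≤ a := by rw [ha]; unfold ms; positivity
  have ha20 : 0 ≤ a2 := by rw [ha2]; unfold ms; positivity
  have haa : a + a2 ≤ d := hT.small
  have hA1 : (A1.card : ℝ) = a * n := by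
    rw [ha]; unfold ms; rw [div_mul_cancel₀ _ hn0.ne']
  have hA2 : (A2.card : ℝ) = a2 * n := by
    rw [ha2]; unfold ms; rw [div_mul_cancel₀ _ hn0.ne']
  have hVc : ∀ i, ((Vi i).card : ℝ) = ms (Vi i) * n := by
    intro i; unfold ms; rw [div_mul_cancel₀ _ hn0.ne']
  have hms0 : ∀ i, 0 ≤ ms (Vi i) := by intro i; unfold ms; positivity
  set Q := qk W Vi A1 with hQ
  have hconn : ∀ x y, 0 ≤ co W x y := by
    intro x y; unfold co; linarith [Wle hW x y]
  -- degrees on the parts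
  have hdV : ∀ i, ∀ x ∈ Vi i, dg Q x = ms (Vi i) - (∑ y ∈ Vi i, co W x y) / n
      + (∑ y ∈ A1, W x y) / n := by
    intro i x hx
    unfold dg
    rw [hQ, sum_V hW hT hx, hVc i]
    rw [← hndef]
    field_simp
  have hW1 : ∀ x, 0 ≤ (∑ y ∈ A1, W x y) / n ∧ (∑ y ∈ A1, W x y) / n ≤ a := by
    intro x
    constructor
    · exact div_nonneg (sum_nonneg fun y _ => Wnn hW x y) hn0.le
    · rw [div_le_iff₀ hn0, ← hA1]
      exact sum_le_card hW x A1
  have hco : ∀ i, ∀ x ∈ Vi i, 0 ≤ (∑ y ∈ Vi i, co W x y) / n ∧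
      (∑ y ∈ Vi i, co W x y) / n ≤ e := by
    intro i x hx
    constructor
    · exact div_nonneg (sum_nonneg fun y _ => hconn x y) hn0.le
    · rw [div_le_iff₀ hn0]
      exact hT.typ i x hx
  -- degrees on A1
  have hdA : ∀ x ∈ A1, m + m ^ 2 / 8 ≤ dg Q x := by
    intro x hx
    have h1 := hT.big x hx
    have h2 : ∑ y, W x y ≤ ∑ y, Q x y + a * n + a2 * n := by
      rw [tot_sum hT (fun y => W x y), hQ, sum_A hT hW hx, ← hA1, ← hA2]
      have h3 := sum_le_card hW x A1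
      have h4 := sum_le_card hW x A2
      linarith
    have h3 : dg W x ≤ dg Q x + a + a2 := by
      unfold dg
      rw [← hndef, div_le_iff₀ hn0]
      have : ((∑ y, Q x y) / n + a + a2) * n = ∑ y, Q x y + a * n + a2 * n := by
        field_simp
      rw [this]; exact h2
    rw [← hm] at h1
    nlinarith
  have hm2 : m ^ 2 ≤ m / 3 := by nlinarith
  have hdvb : ∀ i, ∀ x ∈ Vi i, |dg Q x - m| ≤ 2 * d + e := by
    intro i x hx
    rw [hdV i x hx]
    have h1 := hT.size i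
    rw [← hm] at h1
    have h2 := abs_le.1 h1
    have h3 := hW1 x
    have h4 := hco i x hx
    rw [abs_le]
    constructor
    · linarith [h2.1, h2.2, h3.1, h3.2, h4.1, h4.2]
    · linarith [h2.1, h2.2, h3.1, h3.2, h4.1, h4.2]
  -- sum of sizes
  have hsz : ∑ i, ms (Vi i) = 1 - a - a2 := by
    have h1 := tot_sum hT (fun _ => (1 : ℝ))
    simp only [sum_const, nsmul_eq_mul, mul_one, card_univ] at h1
    rw [← hndef, hA1, hA2, sum_congr rfl (fun i _ => hVc i), ← sum_mul] at h1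
    have h2 : (∑ i, ms (Vi i)) * n = (1 - a - a2) * n := by linarith
    exact mul_right_cancel₀ hn0.ne' h2
  -- the main sum
  have hbl : (∑ i, ∑ x ∈ Vi i, (∑ y ∈ Vi i, co W x y) / n) / n = bl W Vi := by
    unfold bl ee
    rw [sum_div]
    apply sum_congr rfl
    intro i _
    rw [← sum_div, ← hndef, div_div, sq]
  have hE : (∑ i, ∑ x ∈ Vi i, (∑ y ∈ A1, W x y) / n) / n = (∑ y ∈ A1, dg Q y) / n := by
    congr 1
    have h1 : ∀ y ∈ A1, dg Q y = ∑ i, ∑ x ∈ Vi i, W x y / n := by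
      intro y hy
      unfold dg
      rw [hQ, sum_A hT hW hy, ← hndef, sum_div]
      apply sum_congr rfl; intro i _
      rw [sum_div]
      apply sum_congr rfl; intro x _
      rw [hW.symm]
    rw [sum_congr rfl h1, sum_comm]
    apply sum_congr rfl; intro i _
    rw [sum_comm]
    apply sum_congr rfl; intro x _
    rw [sum_div]
  have hv2 : (∑ i, ∑ _x ∈ Vi i, ms (Vi i)) / n = ∑ i, ms (Vi i) ^ 2 := by
    rw [sum_div]
    apply sum_congr rfl; intro i _
    rw [sum_const, nsmul_eq_mul, hVc i]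
    field_simp
  have hS : (∑ i, ∑ x ∈ Vi i, dg Q x) / n = ∑ i, ms (Vi i) ^ 2 - bl W Vi
      + (∑ y ∈ A1, dg Q y) / n := by
    rw [← hE, ← hbl, ← hv2, ← sub_div, ← add_div, ← sum_sub_distrib, ← sum_add_distrib]
    congr 1
    apply sum_congr rfl; intro i _
    rw [← sum_sub_distrib, ← sum_add_distrib]
    apply sum_congr rfl; intro x hx
    exact hdV i x hx
  have hAd : a * (m + m ^ 2 / 8) ≤ (∑ y ∈ A1, dg Q y) / n := by
    rw [le_div_iff₀ hn0]
    calc a * (m + m ^ 2 / 8) * n = (A1.card : ℝ) * (m + m ^ 2 / 8) := by rw [hA1]; ring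
      _ = ∑ _y ∈ A1, (m + m ^ 2 / 8) := by rw [sum_const, nsmul_eq_mul]
      _ ≤ _ := sum_le_sum hdA
  have hcs : m * (∑ i, ms (Vi i)) ^ 2 ≤ ∑ i, ms (Vi i) ^ 2 := by
    have h1 := sq_sum_le_card_mul_sum_sq (s := (univ : Finset (Fin (k - 1))))
      (f := fun i => ms (Vi i))
    rw [card_univ, Fintype.card_fin, Nat.cast_sub (by omega), Nat.cast_one] at h1
    have h2 : 0 ≤ ∑ i, ms (Vi i) ^ 2 := sum_nonneg fun i _ => sq_nonneg _
    calc m * (∑ i, ms (Vi i)) ^ 2 ≤ m * (((k : ℝ) - 1) * ∑ i, ms (Vi i) ^ 2) :=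
          mul_le_mul_of_nonneg_left h1 hm0.le
      _ = _ := by rw [← mul_assoc, hmk, one_mul]
  have hgvm : (∑ i, ∑ x ∈ Vi i, (dg Q x - m)) / n = (∑ i, ∑ x ∈ Vi i, dg Q x) / n
      - m * ∑ i, ms (Vi i) := by
    have h1 : ∑ i, ∑ x ∈ Vi i, (dg Q x - m) = ∑ i, ∑ x ∈ Vi i, dg Q x
        - n * (m * ∑ i, ms (Vi i)) := by
      have h2 : ∀ i, ∑ x ∈ Vi i, (dg Q x - m) = ∑ x ∈ Vi i, dg Q x - n * (m * ms (Vi i)) := by
        intro i
        rw [sum_sub_distrib, sum_const, nsmul_eq_mul, hVc i]; ring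
      rw [sum_congr rfl (fun i _ => h2 i), sum_sub_distrib, ← mul_sum, ← mul_sum]
    rw [h1, sub_div, mul_div_cancel_left₀ _ hn0.ne']
  have hgv : m ^ 2 / 16 * a ≤ (∑ i, ∑ x ∈ Vi i, (dg Q x - m)) / n := by
    rw [hgvm, hS]
    rw [hsz] at hcs ⊢
    have h1 : m * (1 - 2 * (a + a2)) ≤ m * (1 - a - a2) ^ 2 := by
      apply mul_le_mul_of_nonneg_left _ hm0.le
      nlinarith [sq_nonneg (a + a2)]
    have h2 : m * a2 ≤ a2 := by nlinarith
    nlinarith [hba, hAd]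
  refine ⟨⟨qk_symm hW, qk_zo hW⟩, qk_le hW, hdvb, ?_, ?_, ?_, ?_, hgv, ?_, ?_⟩
  · intro x hx
    have := hdA x hx
    nlinarith [sq_nonneg m]
  · intro x hx
    unfold dg
    rw [sum_eq_zero (fun y _ => qk_A2 hT hx y), zero_div]
  · intro x hx y hy
    exact qk_A1A1 hT hx hy
  · intro x hx
    rcases hT.cov x with h | h | ⟨i, h⟩
    · exact absurd h hx
    · have h1 : ∀ y, Q x y = 0 := fun y => qk_A2 hT h y
      rw [sum_eq_zero (fun y _ => h1 y), sum_eq_zero (fun y _ => h1 y), mul_zero]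
    · have h1 : ∑ y ∈ A1, Q x y ≤ a * n := by
        rw [← hA1]
        calc ∑ y ∈ A1, Q x y ≤ ∑ y ∈ A1, W x y := sum_le_sum fun y _ => qk_le hW x y
          _ ≤ _ := sum_le_card hW x A1
      have h2 := (abs_le.1 (hdvb i x h)).1
      have h3 : m / 2 ≤ dg Q x := by
        nlinarith
      have h4 : m / 2 * n ≤ ∑ y, Q x y := by
        unfold dg at h3
        rwa [← hndef, le_div_iff₀ hn0] at h3
      refine h1.trans ?_
      calc a * n = 2 / m * a * (m / 2 * n) := by field_simp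
        _ ≤ 2 / m * a * ∑ y, Q x y := by
          apply mul_le_mul_of_nonneg_left h4
          positivity
  · rw [add_div]
    have h1 : 0 ≤ (∑ x ∈ A1, (dg Q x - m)) / n := by
      apply div_nonneg _ hn0.le
      apply sum_nonneg
      intro x hx
      have := hdA x hx
      nlinarith [sq_nonneg m]
    linarith
  · have h1 : ∀ i, ∀ x ∈ Vi i, |dg Q x - ms (Vi i)| ≤ (∑ y ∈ Vi i, co W x y) / n + a := by
      intro i x hx
      rw [hdV i x hx, abs_le]
      have h3 := hW1 x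
      have h4 := hco i x hx
      constructor
      · linarith [h3.1, h3.2, h4.1, h4.2]
      · linarith [h3.1, h3.2, h4.1, h4.2]
    calc (∑ i, ∑ x ∈ Vi i, |dg Q x - ms (Vi i)|) / n
        ≤ (∑ i, ∑ x ∈ Vi i, ((∑ y ∈ Vi i, co W x y) / n + a)) / n := by
          apply div_le_div_of_nonneg_right _ hn0.le
          exact sum_le_sum fun i _ => sum_le_sum (h1 i)
      _ = bl W Vi + a * ∑ i, ms (Vi i) := by
          rw [← hbl, sum_congr rfl (fun i _ => sum_add_distrib), sum_add_distrib, add_div]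
          congr 1
          rw [sum_div, mul_sum]
          apply sum_congr rfl; intro i _
          rw [sum_const, nsmul_eq_mul, hVc i]
          field_simp
      _ ≤ bl W Vi + a := by
          rw [hsz]
          nlinarith

end Pool.Agent.W405.LP.QK
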